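import Pool.Agent.H61.FM.Targets

/-!
# The coefficients are multiplicative (MP_52e316_nt, row MUL)
-/

set_option autoImplicit false

open MeasureTheory Set Filter NumberField
open scoped Real nonZeroDivisors

namespace Pool.Agent.H11.FM

open Pool.Agent.H31.CN Pool.Agent.H89.FM Pool.Agent.H61.FM

variable {K : Type} [Field K] [NumberField K]

theorem pv_mul (ψ : CC K) (I J : (Ideal (𝓞 K))⁰) : pv ψ (I * J) = pv ψ I * pv ψ J := by
  unfold pv
  rw [map_mul, map_mul, Units.val_mul]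

theorem pv_one (ψ : CC K) : pv ψ (1 : (Ideal (𝓞 K))⁰) = 1 := by
  unfold pv
  rw [map_one, map_one, Units.val_one]

theorem lm_one (ψ : CC K) : lm ψ 1 = 1 := by
  have h : Nn K 1 = {1} := by
    ext I
    rw [mem_Nn, Finset.mem_singleton]
    unfold nm
    rw [Ideal.absNorm_eq_one_iff]
    constructor
    · intro h
      apply Subtype.ext
      rw [h]
      exact Ideal.one_eq_top.symm
    · intro h
      rw [h]
      exact Ideal.one_eq_top
  unfold lm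
  rw [h, Finset.sum_singleton, pv_one]

theorem lm_zero (ψ : CC K) : lm ψ 0 = 0 := by
  have h : Nn K 0 = ∅ := by
    refine Finset.eq_empty_of_forall_notMem fun I hI => ?_
    rw [mem_Nn] at hI
    unfold nm at hI
    rw [Ideal.absNorm_eq_zero_iff] at hI
    exact nonZeroDivisors.coe_ne_zero I hI
  unfold lm
  rw [h, Finset.sum_empty]

omit [NumberField K] in
theorem cop {m n : ℕ} (h : m.Coprime n) :
    Ideal.span {(m : 𝓞 K)} ⊔ Ideal.span {(n : 𝓞 K)} = ⊤ := by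
  have h1 : IsCoprime (m : ℤ) (n : ℤ) := Nat.isCoprime_iff_coprime.2 h
  have h2 : IsCoprime ((m : ℤ) : 𝓞 K) ((n : ℤ) : 𝓞 K) := h1.map (Int.castRingHom (𝓞 K))
  rw [Int.cast_natCast, Int.cast_natCast] at h2
  exact (Ideal.isCoprime_span_singleton_iff _ _).2 h2 |>.sup_eq

theorem recov {m n : ℕ} (h : m.Coprime n) {I J : Ideal (𝓞 K)} (hI : Ideal.absNorm I = m)
    (hJ : Ideal.absNorm J = n) : I = I * J ⊔ Ideal.span {(m : 𝓞 K)} := by
  have hmI : (m : 𝓞 K) ∈ I := by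
    rw [← hI]
    exact Ideal.absNorm_mem I
  have hnJ : (n : 𝓞 K) ∈ J := by
    rw [← hJ]
    exact Ideal.absNorm_mem J
  have htop : J ⊔ Ideal.span {(m : 𝓞 K)} = ⊤ := by
    rw [eq_top_iff, ← cop (K := K) h, sup_comm]
    exact sup_le_sup_right ((Ideal.span_singleton_le_iff_mem _).2 hnJ) _
  refine le_antisymm ?_ ?_
  · calc I = I * ⊤ := (Ideal.mul_top I).symm
      _ = I * (J ⊔ Ideal.span {(m : 𝓞 K)}) := by rw [htop]
      _ = I * J ⊔ I * Ideal.span {(m : 𝓞 K)} := Ideal.mul_sup _ _ _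
      _ ≤ I * J ⊔ Ideal.span {(m : 𝓞 K)} := sup_le_sup_left Ideal.mul_le_right _
  · exact sup_le Ideal.mul_le_left ((Ideal.span_singleton_le_iff_mem _).2 hmI)

theorem norm_pow (m : ℕ) : ∃ d : ℕ, Ideal.absNorm (Ideal.span {(m : 𝓞 K)}) = m ^ d := by
  refine ⟨Module.finrank ℤ (𝓞 K), ?_⟩
  rw [Ideal.absNorm_span_singleton]
  have h : ((m : 𝓞 K)) = algebraMap ℤ (𝓞 K) (m : ℤ) := by simp
  rw [h, Algebra.norm_algebraMap]
  simp [Int.natAbs_pow]

theorem split {m n : ℕ} (h : m.Coprime n) (hm : m ≠ 0) {E : Ideal (𝓞 K)}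
    (hE : Ideal.absNorm E = m * n) :
    (E ⊔ Ideal.span {(m : 𝓞 K)}) * (E ⊔ Ideal.span {(n : 𝓞 K)}) = E ∧
      Ideal.absNorm (E ⊔ Ideal.span {(m : 𝓞 K)}) = m ∧
      Ideal.absNorm (E ⊔ Ideal.span {(n : 𝓞 K)}) = n := by
  have h1 : (E ⊔ Ideal.span {(m : 𝓞 K)}) * (E ⊔ Ideal.span {(n : 𝓞 K)}) = E := by
    refine le_antisymm ?_ ?_
    · rw [Ideal.sup_mul]
      refine sup_le Ideal.mul_le_left ?_
      rw [Ideal.mul_sup]
      refine sup_le Ideal.mul_le_right ?_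
      rw [Ideal.span_singleton_mul_span_singleton, Ideal.span_singleton_le_iff_mem, ← Nat.cast_mul,
        ← hE]
      exact Ideal.absNorm_mem E
    · calc E = E * (Ideal.span {(m : 𝓞 K)} ⊔ Ideal.span {(n : 𝓞 K)}) := by
            rw [cop h, Ideal.mul_top]
        _ = Ideal.span {(m : 𝓞 K)} * E ⊔ E * Ideal.span {(n : 𝓞 K)} := by
            rw [Ideal.mul_sup, mul_comm E (Ideal.span {(m : 𝓞 K)})]
        _ ≤ _ := sup_le (Ideal.mul_mono le_sup_right le_sup_left)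
            (Ideal.mul_mono le_sup_left le_sup_right)
  have h2 : Ideal.absNorm (E ⊔ Ideal.span {(m : 𝓞 K)}) *
      Ideal.absNorm (E ⊔ Ideal.span {(n : 𝓞 K)}) = m * n := by
    rw [← map_mul, h1, hE]
  obtain ⟨d, hd⟩ := norm_pow (K := K) m
  obtain ⟨e, he⟩ := norm_pow (K := K) n
  have h3 : Ideal.absNorm (E ⊔ Ideal.span {(m : 𝓞 K)}) ∣ m ^ d := by
    rw [← hd]
    exact Ideal.absNorm_dvd_absNorm_of_le le_sup_right
  have h4 : Ideal.absNorm (E ⊔ Ideal.span {(n : 𝓞 K)}) ∣ n ^ e := by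
    rw [← he]
    exact Ideal.absNorm_dvd_absNorm_of_le le_sup_right
  have h5 : (Ideal.absNorm (E ⊔ Ideal.span {(m : 𝓞 K)})).Coprime n :=
    Nat.Coprime.coprime_dvd_left h3 (h.pow_left d)
  have h6 : m.Coprime (Ideal.absNorm (E ⊔ Ideal.span {(n : 𝓞 K)})) :=
    Nat.Coprime.coprime_dvd_right h4 (h.pow_right e)
  have h7 : Ideal.absNorm (E ⊔ Ideal.span {(m : 𝓞 K)}) = m := by
    refine Nat.dvd_antisymm (h5.dvd_of_dvd_mul_right (h2 ▸ Dvd.intro _ rfl)) ?_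
    exact h6.dvd_of_dvd_mul_right (h2 ▸ Dvd.intro _ rfl)
  refine ⟨h1, h7, ?_⟩
  rw [h7] at h2
  exact Nat.eq_of_mul_eq_mul_left (Nat.pos_of_ne_zero hm) h2

theorem pf_MUL : T_MUL := by
  intro K _ _ ψ
  refine ⟨lm_one ψ, fun m n h => ?_⟩
  rcases eq_or_ne m 0 with rfl | hm
  · rw [Nat.zero_mul, lm_zero, zero_mul]
  rcases eq_or_ne n 0 with rfl | hn
  · rw [Nat.mul_zero, lm_zero, mul_zero]
  unfold lm
  rw [Finset.sum_mul_sum, ← Finset.sum_product']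
  symm
  refine Finset.sum_nbij (fun p => p.1 * p.2) ?_ ?_ ?_ ?_
  · rintro ⟨I, J⟩ hp
    obtain ⟨hI, hJ⟩ := Finset.mem_product.1 hp
    rw [mem_Nn] at hI hJ ⊢
    show Ideal.absNorm ((I : Ideal (𝓞 K)) * (J : Ideal (𝓞 K))) = m * n
    rw [map_mul]
    exact congrArg₂ _ hI hJ
  · rintro ⟨I, J⟩ hp ⟨I', J'⟩ hp' he
    obtain ⟨hI, hJ⟩ := Finset.mem_product.1 (Finset.mem_coe.1 hp)
    obtain ⟨hI', hJ'⟩ := Finset.mem_product.1 (Finset.mem_coe.1 hp')
    rw [mem_Nn] at hI hJ hI' hJ'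
    have he' : (I : Ideal (𝓞 K)) * (J : Ideal (𝓞 K)) = (I' : Ideal (𝓞 K)) * (J' : Ideal (𝓞 K)) :=
      congrArg Subtype.val he
    have e1 : (I : Ideal (𝓞 K)) = I' := by
      rw [recov h hI hJ, he', ← recov h hI' hJ']
    have e2 : (J : Ideal (𝓞 K)) = J' := by
      rw [recov h.symm hJ hI, mul_comm (J : Ideal (𝓞 K)), he', mul_comm (I' : Ideal (𝓞 K)),
        ← recov h.symm hJ' hI']
    exact Prod.ext (Subtype.ext e1) (Subtype.ext e2)
  · intro E hE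
    rw [Finset.mem_coe, mem_Nn] at hE
    obtain ⟨h1, h2, h3⟩ := split h hm hE
    have n1 : (E : Ideal (𝓞 K)) ⊔ Ideal.span {(m : 𝓞 K)} ∈ (Ideal (𝓞 K))⁰ := by
      rw [mem_nonZeroDivisors_iff_ne_zero]
      intro h0
      rw [h0] at h2
      exact hm (by rw [← h2]; exact Ideal.absNorm_bot)
    have n2 : (E : Ideal (𝓞 K)) ⊔ Ideal.span {(n : 𝓞 K)} ∈ (Ideal (𝓞 K))⁰ := by
      rw [mem_nonZeroDivisors_iff_ne_zero]
      intro h0
      rw [h0] at h3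
      exact hn (by rw [← h3]; exact Ideal.absNorm_bot)
    refine ⟨(⟨_, n1⟩, ⟨_, n2⟩), ?_, Subtype.ext h1⟩
    exact Finset.mem_coe.2 (Finset.mem_product.2 ⟨mem_Nn.2 h2, mem_Nn.2 h3⟩)
  · rintro ⟨I, J⟩ _
    exact (pv_mul ψ I J).symm

end Pool.Agent.H11.FM
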